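import Pool.Agent.H155Z.SpMain

open scoped ENNReal

namespace Pool.Agent.Results.MP_cb142b_pr.AllGraphs

open Pool.Agent.H155Z.Sp

/-- For every finite connected graph (in particular every finite connected Cayley graph) the
maximal expected hitting time of continuous-time simple random walk is finite and the
spectral-profile time is at most `128` times it. -/
theorem result (V : Type) [Fintype V] [DecidableEq V] [MeasurableSpace V]
    [MeasurableSingletonClass V] (G : SimpleGraph V) [DecidableRel G.Adj] (hG : G.Connected) :
    tHit G < ∞ ∧ tSp G ≤ 128 * tHit G :=
  main G hG

end Pool.Agent.Results.MP_cb142b_pr.AllGraphs
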